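import Pool.Agent.Hx18.CT.Stmt
import Pool.Agent.Hx18.BB.Fil

/-!
# Bloch-Beilinson filtrations in codimension at most two
-/

set_option autoImplicit false

open CategoryTheory AlgebraicGeometry

universe u v w

namespace Pool.Agent.Hx18.CT

open Pool.Agent.H914 Pool.Agent.H914.VarClass Pool.Agent.H914.VarClass.Obj Pool.Agent.W492.BB
  Pool.Agent.W550.Corr Pool.Agent.TH133 Pool.Agent.Y148.BB Pool.Agent.Hx18.BB

set_option linter.unusedSectionVars false
set_option linter.unusedVariables false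

variable {k : Type u} [Field k] {𝒱 : VarClass k}

variable {C : TheoryData.{u, v, 0} 𝒱 ℚ} [hC : IsChowProj C] {K : Type w} [Field K]
  {H : WeilTheoryData.{u, v, w} C K} [hH : IsWeilProj H] {X X' Y Z W T P R V S : 𝒱.Obj}
  {N : Family C}

include hC hH

/-- The action of a lift. -/
lemma act_down (π : X' ⟶ X) (Γ' : C.A (X'.prod Y)) (z : C.A X) :
    C.act (C.push (prodMap π (𝟙 Y)) Γ') z = C.act Γ' (C.pull π z) := by
  rw [TheoryData.act_apply, TheoryData.act_apply, ← C.proj_right, ← C.push_comp, ← C.pull_comp,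
    ← C.pull_comp, prodMap_fst, prodMap_snd, Category.comp_id]

omit hC in
lemma actH_down (π : X' ⟶ X) (Γ' : H.A (X'.prod Y)) (z : H.A X) :
    H.act (H.push (prodMap π (𝟙 Y)) Γ') z = H.act Γ' (H.pull π z) := by
  rw [TheoryData.act_apply, TheoryData.act_apply, ← H.proj_right, ← H.push_comp, ← H.pull_comp,
    ← H.pull_comp, prodMap_fst, prodMap_snd, Category.comp_id]

/-- Classes of codimension one do not matter. -/
lemma star_of_dim_le_one (hN : IsAJKernel H N) (h : Y.dim ≤ 1) : Star H N X Y := by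
  intro Γ hΓ _ z hz
  have h1 : C.act Γ z ∈ C.gr Y 2 := act_memZ hΓ (hN.deg X 2 z hz).1 (by push_cast; ring)
  exact hC.gr_top Y 2 _ h1 (by omega)

/-- The reduction of the dimension of the source. -/
lemma star_of_lift (hN : IsAJKernel H N) {Γ : C.A (X.prod Y)} {π : X' ⟶ X} {Γ' : C.A (X'.prod Y)}
    {E : C.A (X'.prod X')} (hl : IsLift H Γ π Γ' E) (hk : Kills H Γ 2) (hs : Star H N X' Y)
    {z : C.A X} (hz : N.Mem 2 z) : C.act Γ z = 0 := by
  have hzd := (hN.deg X 2 z hz).1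
  have hE : E ∈ C.gr (X'.prod X') X'.dim := by
    have h1 : Submodule.span ℚ {c | ∃ a b : C.A X', C.Deg (X'.dim - 1) a ∧ C.Deg 1 b ∧
        c = box a b} ≤ C.gr (X'.prod X') X'.dim := by
      rw [Submodule.span_le]
      rintro c ⟨a, b, ha, hb, rfl⟩
      exact mem_of_eq (ext_mem' ha hb) (by ring)
    exact h1 hl.span
  have hpz : N.Mem 2 (C.pull π z) := by
    have h1 := hN.stable X X' 2 2 (C.cograph π) (mem_of_eq (cograph_mem _) (by ring)) z hz
    rwa [C.act_cograph] at h1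
  have hEz : C.act E (C.pull π z) = 0 := by
    have h1 : Submodule.span ℚ {c | ∃ a b : C.A X', C.Deg (X'.dim - 1) a ∧ C.Deg 1 b ∧
        c = box a b} ≤ LinearMap.ker ((actB C (X := X') (Y := X')).flip (C.pull π z)) := by
      rw [Submodule.span_le]
      rintro c ⟨a, b, ha, hb, rfl⟩
      rw [SetLike.mem_coe, LinearMap.mem_ker]
      change C.act (C.ext a b) (C.pull π z) = 0
      refine act_ext_zero_of_lt (C.mul_mem ha (C.pull_mem π hzd)) ?_
      push_cast
      omega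
    exact LinearMap.mem_ker.1 (h1 hl.span)
  have hk' : Kills H (Γ' - C.comp E Γ') 2 := by
    intro a ha
    obtain ⟨b, hb, hab⟩ := hl.image a ha
    have h1 : H.act (H.cl (Γ' - C.comp E Γ')) a =
        H.act (H.cl Γ') a - H.act (H.cl Γ') (H.act (H.cl E) a) := by
      rw [map_sub, H.act_sub, actH_comp]
    have h2 : a - H.act (H.cl E) a = H.pull π b := by
      rw [sub_eq_iff_eq_add]
      exact hab.symm.trans (add_comm _ _)
    have h3 : H.act (H.cl Γ') a - H.act (H.cl Γ') (H.act (H.cl E) a) =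
        H.act (H.cl Γ') (H.pull π b) := by
      rw [← h2]
      exact (map_sub (H.actL (H.cl Γ')) _ _).symm
    rw [h1, h3, ← actH_down, ← H.cl_push]
    have h4 : C.push (prodMap π (𝟙 Y)) Γ' = Γ := hl.down_eq
    rw [h4]
    exact hk b hb
  have h5 := hs (Γ' - C.comp E Γ') (Submodule.sub_mem _ hl.deg (comp_memZ hE hl.deg (by ring)))
    hk' (C.pull π z) hpz
  rw [C.act_sub, C.act_comp, hEz, C.act_map_zero, sub_zero] at h5
  have h4 : C.push (prodMap π (𝟙 Y)) Γ' = Γ := hl.down_eq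
  rw [← h4, act_down (H := H), h5]

/-- The reduction of the dimension of the target. -/
lemma zero_of_lefschetz (hN : IsAJKernel H N) {h : C.A Y} {Λ : C.A (Y.prod Y)}
    (hL : IsLefschetz H Y h Λ) {w : C.A Y} (hw : N.Mem 2 w)
    (hr : ∀ (T : 𝒱.Obj) (i : T ⟶ Y), T.dim + 1 = Y.dim → C.up i w = 0) : w = 0 := by
  obtain ⟨hwd, hwh⟩ := hN.deg Y 2 w hw
  obtain ⟨D, hD, rfl⟩ := hL.sections w hwd hr
  have hDh := hL.hard D hD hwh
  have hM : C.mulCorr h ∈ C.gr (Y.prod Y) (Y.dim + 1) := by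
    have h1 := wg_mem (𝟙 Y) hL.deg
    exact mem_of_eq h1 (by ring)
  have hc : C.comp (C.mulCorr h) Λ ∈ C.gr (Y.prod Y) Y.dim :=
    comp_memZ hM hL.deg' (by ring)
  have hk : Kills H (C.comp (C.mulCorr h) Λ - dg C Y) (2 * (1 : ℕ) - 1) := by
    intro a ha
    have h1 : H.act (H.cl (C.mulCorr h)) a = H.cl h * a := by
      have h2 : H.cl (C.mulCorr h) = H.mulCorr (H.cl h) := H.cl_push _ _
      rw [h2, H.act_mulCorr]
    have h3 : H.act (H.cl (dg C Y)) a = a := by
      have h4 : H.cl (dg C Y) = dg H.toTheoryData Y := by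
        rw [dg, dg, TheoryData.graph, TheoryData.graph, H.cl_push, map_one]
      rw [h4, act_dg]
    rw [map_sub, H.act_sub, actH_comp, h1, h3]
    have h5 : H.act (H.cl Λ) (H.cl h * a) = a := hL.inverse a (by simpa using ha)
    rw [h5, sub_self]
  have h6 := hN.kills Y Y 1 1 (C.comp (C.mulCorr h) Λ - dg C Y)
    (Submodule.sub_mem _ (mem_of_eq hc (by ring)) (mem_of_eq (dg_mem C Y) (by ring))) hk D
    (by exact_mod_cast hD) hDh
  have h7 := hN.abel Y _ h6
  rw [C.act_sub, act_dg, C.act_comp, C.act_mulCorr] at h7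
  have h8 : C.act Λ (h * D) ∈ N.N Y 1 :=
    hN.stable Y Y 2 1 Λ (mem_of_eq hL.deg' (by push_cast; ring)) _ hw
  have h9 := hN.abel Y _ h8
  rw [h9, zero_sub, neg_eq_zero] at h7
  change h * D = 0
  rw [h7, mul_zero]

lemma star_of_sections (hN : IsAJKernel H N) (hL : LefschetzTheorem H) {m : ℕ} (hm : m ≤ 4)
    (h : ∀ X Y : 𝒱.Obj, Y.dim < m → Star H N X Y)
    (h' : ∀ X Y : 𝒱.Obj, m ≤ Y.dim → Y.dim ≤ 3 → (∀ T : 𝒱.Obj, T.dim < Y.dim → Star H N X T) →
      Star H N X Y) : ∀ (d : ℕ) (X Y : 𝒱.Obj), Y.dim = d → Star H N X Y := by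
  intro d
  induction d using Nat.strong_induction_on with
  | _ d ih =>
    intro X Y hY
    rcases lt_or_ge Y.dim m with h1 | h1
    · exact h X Y h1
    rcases lt_or_ge 3 Y.dim with h2 | h2
    swap
    · exact h' X Y h1 h2 fun T hT => ih T.dim (by omega) X T rfl
    obtain ⟨a, Λ, hL⟩ := hL Y h2
    intro Γ hΓ hk z hz
    refine zero_of_lefschetz hN hL (hN.stable X Y 2 2 Γ (mem_of_eq hΓ (by ring)) z hz) ?_
    intro T i hT
    have h3 := ih T.dim (by omega) X T rfl (C.comp Γ (C.cograph i))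
      (comp_memZ hΓ (cograph_mem i) (by ring)) ?_ z hz
    · rw [C.act_comp, C.act_cograph] at h3
      exact h3
    · intro a ha
      rw [actH_comp, hk a ha]
      exact map_zero (H.actL _)

/-- The criterion. -/
theorem star_all (hN : IsAJKernel H N) (hL : LefschetzTheorem H) (hT : LiftingTheorem H)
    (h : ∀ X Y : 𝒱.Obj, Y.dim ≤ 3 → X.dim ≤ Y.dim + 1 → Star H N X Y) (X Y : 𝒱.Obj) :
    Star H N X Y := by
  refine star_of_sections hN hL (m := 0) (by norm_num) (fun X Y h => absurd h (Nat.not_lt_zero _))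
    ?_ Y.dim X Y rfl
  intro X Y _ hY _
  rcases lt_or_ge Y.dim 2 with h1 | h1
  · exact star_of_dim_le_one hN (by omega)
  rcases lt_or_ge (Y.dim + 1) X.dim with h2 | h2
  swap
  · exact h X Y hY h2
  intro Γ hΓ hk z hz
  obtain ⟨X', π, Γ', E, hl⟩ := hT X Y Γ h1 hY h2 hΓ
  exact star_of_lift hN hl hk (h X' Y hY hl.dim_eq.le) hz

/-- The criterion in dimension three. -/
theorem star_all' (hN : IsAJKernel H N) (hL : LefschetzTheorem H) (hT : LiftingTheorem H)
    (h : ∀ X Y : 𝒱.Obj, Y.dim ≤ 2 → X.dim ≤ 3 → Star H N X Y) (hR : RestrictionInjective N)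
    (X Y : 𝒱.Obj) : Star H N X Y := by
  have h2 : ∀ X Y : 𝒱.Obj, Y.dim < 3 → Star H N X Y := by
    intro X Y hY
    rcases lt_or_ge Y.dim 2 with h1 | h1
    · exact star_of_dim_le_one hN (by omega)
    rcases lt_or_ge (Y.dim + 1) X.dim with h2 | h2
    swap
    · exact h X Y (by omega) (by omega)
    intro Γ hΓ hk z hz
    obtain ⟨X', π, Γ', E, hl⟩ := hT X Y Γ h1 (by omega) h2 hΓ
    exact star_of_lift hN hl hk (h X' Y (by omega) (by have := hl.dim_eq; omega)) hz
  refine star_of_sections hN hL (m := 3) (by norm_num) h2 ?_ Y.dim X Y rfl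
  intro X Y h3 h4 h5 Γ hΓ hk z hz
  refine hR Y (by omega) _ (hN.stable X Y 2 2 Γ (mem_of_eq hΓ (by ring)) z hz) ?_
  intro T i hT
  have h6 := h5 T (by omega) (C.comp Γ (C.cograph i))
    (comp_memZ hΓ (cograph_mem i) (by ring)) ?_ z hz
  · rw [C.act_comp, C.act_cograph] at h6
    exact h6
  · intro a ha
    rw [actH_comp, hk a ha]
    exact map_zero (H.actL _)

omit hC hH in
/-- The homologically trivial classes of codimension `j`. -/
def homSub (H : WeilTheoryData.{u, v, w} C K) (X : 𝒱.Obj) (j : ℕ) : Submodule ℚ (C.A X) where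
  carrier := {z | z ∈ C.gr X j ∧ H.cl z = 0}
  add_mem' := by
    rintro y z ⟨h1, h2⟩ ⟨h1', h2'⟩
    exact ⟨Submodule.add_mem _ h1 h1', by rw [map_add, h2, h2', add_zero]⟩
  zero_mem' := ⟨Submodule.zero_mem _, map_zero _⟩
  smul_mem' := by
    rintro c z ⟨h1, h2⟩
    refine ⟨Submodule.smul_mem _ c h1, ?_⟩
    rw [← smul_one_mul, map_mul, h2, mul_zero]

omit hC hH in
/-- The filtration `CH^j ⊇ CH^j_hom ⊇ N ⊇ 0`. -/
def shortF (hN : IsAJKernel H N) : Filtration C where
  F X j ν :=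
    match ν with
    | 0 => C.gr X j
    | 1 => homSub H X j
    | 2 => N.N X j
    | _ => ⊥
  le_gr := by
    intro X j ν
    rcases ν with _ | _ | _ | ν
    · exact le_refl _
    · exact fun z hz => hz.1
    · exact fun z hz => (hN.deg X j z hz).1
    · exact bot_le
  anti := by
    intro X j ν
    rcases ν with _ | _ | _ | ν
    · exact fun z hz => hz.1
    · exact fun z hz => hN.deg X j z hz
    · exact bot_le
    · exact bot_le

lemma zero_of_codim_zero {z : C.A X} (hz : C.Deg 0 z) (h : H.cl z = 0) : z = 0 := by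
  obtain ⟨c, rfl⟩ := hC.gr_zero X z hz
  rw [cl_smul_one_ne h, zero_smul]

lemma small_zero (hN : IsAJKernel H N) {j : ℕ} (hj : j ≤ 1) {z : C.A X} (hz : N.Mem j z) :
    z = 0 := by
  rcases Nat.le_one_iff_eq_zero_or_eq_one.1 hj with rfl | rfl
  · obtain ⟨h1, h2⟩ := hN.deg X 0 z hz
    exact zero_of_codim_zero (H := H) (by exact_mod_cast h1) h2
  · exact hN.abel X z hz

/-- **Existence.** -/
theorem isBB_of_star (hN : IsAJKernel H N) {S : 𝒱.Obj → Prop}
    (h : ∀ X Y : 𝒱.Obj, Star H N X Y) : IsBB H N 2 S (shortF hN) where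
  zero X _ j _ z := Iff.rfl
  one X _ j _ z := Iff.rfl
  two X _ j _ z := Iff.rfl
  top X _ j hj z hz := by
    have hj2 : j ≤ 2 := by exact_mod_cast hj
    interval_cases j
    · exact zero_of_codim_zero (H := H) (by exact_mod_cast hz.1) hz.2
    · exact small_zero hN le_rfl hz
    · exact (Submodule.mem_bot ℚ).1 hz
  stable X Y _ _ j i ν _ _ Γ hΓ z hz := by
    rcases ν with _ | _ | _ | ν
    · exact act_memZ hΓ hz (by ring)
    · exact ⟨act_memZ hΓ hz.1 (by ring), act_hom hz.2⟩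
    · exact hN.stable X Y j i Γ hΓ z hz
    · have h1 : z = 0 := (Submodule.mem_bot ℚ).1 hz
      rw [h1, C.act_map_zero]
      exact Submodule.zero_mem _
  shift X Y _ _ j i ν hj hi Γ hΓ hk z hz := by
    have hj2 : j ≤ 2 := by exact_mod_cast hj
    have hi2 : i ≤ 2 := by exact_mod_cast hi
    rcases ν with _ | _ | _ | ν
    · refine ⟨act_memZ hΓ hz (by ring), ?_⟩
      rw [cl_act]
      exact hk _ (by simpa using H.cl_mem hz)
    · exact hN.kills X Y j i Γ hΓ (by simpa using hk) z hz.1 hz.2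
    · refine (Submodule.mem_bot ℚ).2 ?_
      have hzN : N.Mem j z := hz
      rcases Nat.lt_or_ge j 2 with h1 | h1
      · rw [small_zero hN (by omega) hzN, C.act_map_zero]
      · rcases Nat.lt_or_ge i 2 with h2 | h2
        · exact small_zero hN (by omega) (hN.stable X Y j i Γ hΓ z hzN)
        · obtain rfl : j = 2 := by omega
          obtain rfl : i = 2 := by omega
          exact h X Y Γ (mem_of_eq hΓ (by ring)) (by simpa using hk) z hzN
    · have h1 : z = 0 := (Submodule.mem_bot ℚ).1 hz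
      rw [h1, C.act_map_zero]
      exact Submodule.zero_mem _

omit hC hH in
lemma ExistsUpTo.mono {D D' : ℕ∞} (hD : D ≤ D') (h : ExistsUpTo H N D') : ExistsUpTo H N D := by
  obtain ⟨F, hF⟩ := h
  exact ⟨F,
    { zero := fun X hX => hF.zero X (hX.trans hD)
      one := fun X hX => hF.one X (hX.trans hD)
      two := fun X hX => hF.two X (hX.trans hD)
      top := fun X hX => hF.top X (hX.trans hD)
      stable := fun X Y hX hY => hF.stable X Y (hX.trans hD) (hY.trans hD)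
      shift := fun X Y hX hY => hF.shift X Y (hX.trans hD) (hY.trans hD) }⟩

omit hC hH in
lemma star_of_exists {D : ℕ∞} (h : ExistsUpTo H N D) (hX : (X.dim : ℕ∞) ≤ D)
    (hY : (Y.dim : ℕ∞) ≤ D) : Star H N X Y := by
  obtain ⟨F, hF⟩ := h
  intro Γ hΓ hk z hz
  have h2 : ((2 : ℕ) : ℕ∞) ≤ 2 := by norm_num
  have h1 := (hF.two X hX 2 h2 z).2 hz
  have h3 : F.Mem 2 3 (C.act Γ z) := by
    refine hF.shift X Y hX hY 2 2 2 h2 h2 Γ ?_ ?_ z h1
    · have e : (X.dim : ℤ) + (2 : ℕ) - (2 : ℕ) = X.dim := by ring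
      change Γ ∈ C.gr (X.prod Y) ((X.dim : ℤ) + (2 : ℕ) - (2 : ℕ))
      rw [e]
      exact hΓ
    · simpa using hk
  exact hF.top Y hY 2 h2 _ h3

omit hC hH in
/-- **Main theorem.** -/
theorem main (C : TheoryData.{u, v, 0} 𝒱 ℚ) [IsChowProj C] {K : Type w} [Field K]
    (H : WeilTheoryData.{u, v, w} C K) [IsWeilProj H] (N : Family C) (hN : IsAJKernel H N)
    (hL : LefschetzTheorem H) (hT : LiftingTheorem H) :
    (ExistsUpTo H N ⊤ ↔ ExistsUpTo H N 4) ∧
    (ExistsUpTo H N ⊤ ↔ ∀ X Y : 𝒱.Obj, Y.dim ≤ 3 → X.dim ≤ Y.dim + 1 → Star H N X Y) ∧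
    (ExistsUpTo H N 3 → RestrictionInjective N → ExistsUpTo H N ⊤) := by
  have key : (∀ X Y : 𝒱.Obj, Y.dim ≤ 3 → X.dim ≤ Y.dim + 1 → Star H N X Y) →
      ExistsUpTo H N ⊤ := fun h => ⟨_, isBB_of_star hN (star_all hN hL hT h)⟩
  refine ⟨⟨fun h => h.mono le_top, fun h => key ?_⟩, ⟨fun h X Y _ _ => ?_, key⟩, ?_⟩
  · intro X Y hY hX
    exact star_of_exists h (by exact_mod_cast (by omega : X.dim ≤ 4))
      (by exact_mod_cast (by omega : Y.dim ≤ 4))
  · exact star_of_exists h le_top le_top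
  · intro h hR
    refine ⟨_, isBB_of_star hN (star_all' hN hL hT ?_ hR)⟩
    intro X Y hY hX
    exact star_of_exists h (by exact_mod_cast hX) (by exact_mod_cast (by omega : Y.dim ≤ 3))

end Pool.Agent.Hx18.CT
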