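import Pool.Agent.Hx18.BB.Stmt

/-!
# Bloch-Beilinson filtrations in codimension at most two: definitions
-/

set_option autoImplicit false

open CategoryTheory AlgebraicGeometry

universe u v w

namespace Pool.Agent.Hx18.CT

open Pool.Agent.H914 Pool.Agent.H914.VarClass Pool.Agent.H914.VarClass.Obj Pool.Agent.W492.BB
  Pool.Agent.W550.Corr Pool.Agent.TH133 Pool.Agent.Hx18.BB

noncomputable section

variable {k : Type u} [Field k] {𝒱 : VarClass k} {C : TheoryData.{u, v, 0} 𝒱 ℚ} {K : Type w}
  [Field K] (H : WeilTheoryData.{u, v, w} C K) {X X' Y : 𝒱.Obj}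

/-- The properties of an ample divisor class `h` of large degree on the variety `Y` of dimension at
least four, and of a correspondence `Λ` on `Y`:
* a class of codimension two which vanishes on all the varieties `T ⟶ Y` of dimension one less is a
  multiple of `h` (for a complex variety: the spreading-out argument of Bloch and Srinivas for a
  Lefschetz pencil, and the theorem of Grothendieck and Lefschetz on the divisors of its members);
* the hard Lefschetz theorem for the classes of divisors;
* `Λ` is the inverse of the Lefschetz operator of `h` on `H^1(Y)` (Lieberman). -/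
structure IsLefschetz (Y : 𝒱.Obj) (h : C.A Y) (Λ : C.A (Y.prod Y)) : Prop where
  deg : C.Deg 1 h
  deg' : C.Deg (Y.dim - 1) Λ
  sections : ∀ w : C.A Y, C.Deg 2 w →
    (∀ (T : 𝒱.Obj) (i : T ⟶ Y), T.dim + 1 = Y.dim → C.up i w = 0) →
    ∃ D : C.A Y, C.Deg 1 D ∧ w = C.mul h D
  hard : ∀ D : C.A Y, C.Deg 1 D → HomTrivial H (C.mul h D) → HomTrivial H D
  inverse : ∀ a : H.A Y, H.Deg 1 a → H.act (H.cl Λ) (H.mul (H.cl h) a) = a

/-- All the varieties of dimension at least four have such classes `h` and `Λ`. -/
def LefschetzTheorem : Prop :=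
  ∀ Y : 𝒱.Obj, 4 ≤ Y.dim → ∃ (h : C.A Y) (Λ : C.A (Y.prod Y)), IsLefschetz H Y h Λ

/-- The correspondence `Γ` from `X` to `Y` lifts to the correspondence `Γ'` from `X'` to `Y`, where
`π : X' ⟶ X` and `dim X' = dim Y + 1`; and the cohomology `H^2(X')` is generated by the image of
`H^2(X)` and by divisors: there is a combination `E` of correspondences (1-cycle) × (divisor) such
that `a - E_* a` comes from `H^2(X)` for all `a` in `H^2(X')`. -/
structure IsLift (Γ : C.A (X.prod Y)) (π : X' ⟶ X) (Γ' : C.A (X'.prod Y))
    (E : C.A (X'.prod X')) : Prop where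
  dim_eq : X'.dim = Y.dim + 1
  deg : C.Deg X'.dim Γ'
  down_eq : C.down (prodMap π (𝟙 Y)) Γ' = Γ
  span : InSpan (fun c => ∃ a b : C.A X', C.Deg (X'.dim - 1) a ∧ C.Deg 1 b ∧ c = box a b) E
  image : ∀ a : H.A X', H.Deg 2 a → ∃ b : H.A X, H.Deg 2 b ∧ H.act (H.cl E) a + H.up π b = a

/-- The correspondences of degree zero from a variety `X` to a surface or threefold `Y` with
`dim Y + 1 < dim X` have lifts. (For complex varieties: blow up `X` so that the strict transforms of
the images in `X` of the components of the support of the correspondence, which have dimension at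
most `dim Y`, are smooth, blow these up, and let `X'` be a complete intersection of ample divisors
in the result; by the Lefschetz theorem, `H^2(X')` is the sum of `H^2(X)` and of the classes of the
exceptional divisors.) -/
def LiftingTheorem : Prop :=
  ∀ (X Y : 𝒱.Obj) (Γ : C.A (X.prod Y)), 2 ≤ Y.dim → Y.dim ≤ 3 → Y.dim + 1 < X.dim →
    C.Deg X.dim Γ → ∃ (X' : 𝒱.Obj) (π : X' ⟶ X) (Γ' : C.A (X'.prod Y)) (E : C.A (X'.prod X')),
      IsLift H Γ π Γ' E

/-- The correspondences of degree zero from `X` to `Y` which act as zero on `H^2(X)` act as zero on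
the kernel of the Abel-Jacobi map on `CH^2(X)`. -/
def Star (N : Family C) (X Y : 𝒱.Obj) : Prop :=
  ∀ Γ : C.A (X.prod Y), C.Deg X.dim Γ → Kills H Γ 2 → ∀ z : C.A X, N.Mem 2 z → C.act Γ z = 0

/-- On a threefold, the classes of codimension two in the kernel of the Abel-Jacobi map are
determined by their restrictions to surfaces. -/
def RestrictionInjective (N : Family C) : Prop :=
  ∀ Y : 𝒱.Obj, Y.dim = 3 → ∀ w : C.A Y, N.Mem 2 w →
    (∀ (T : 𝒱.Obj) (i : T ⟶ Y), T.dim = 2 → C.up i w = 0) → w = 0

/-- A Bloch-Beilinson filtration exists on the Chow groups of codimension at most two of the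
varieties of dimension at most `D`. -/
def ExistsUpTo (N : Family C) (D : ℕ∞) : Prop :=
  ∃ F : Filtration C, IsBB H N 2 (fun X => (X.dim : ℕ∞) ≤ D) F

end

end Pool.Agent.Hx18.CT
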